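import Mathlib

/-!
# Systems of quadratic forms over fields of small transcendence degree (Tsen, Lang)
-/

set_option autoImplicit false

namespace Pool.Agent.Lib.Mead.Gen

/-- every system of `r` quadratic forms in more than `lam * r` variables over `F` has a nontrivial
common zero -/
def QS (F : Type*) [Field F] (lam : ℕ) : Prop :=
  ∀ (r n : ℕ), lam * r < n → ∀ c : Fin r → Fin n → Fin n → F,
    ∃ x : Fin n → F, x ≠ 0 ∧ ∀ i, ∑ a, ∑ b, c i a b * (x a * x b) = 0

theorem QS.fintype {F : Type*} [Field F] {lam : ℕ} (h : QS F lam) {ι κ : Type*} [Fintype ι]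
    [Fintype κ] (hc : lam * Fintype.card ι < Fintype.card κ) (c : ι → κ → κ → F) :
    ∃ x : κ → F, x ≠ 0 ∧ ∀ i, ∑ a, ∑ b, c i a b * (x a * x b) = 0 := by
  classical
  let e := Fintype.equivFin ι
  let f := Fintype.equivFin κ
  obtain ⟨x, hx, h0⟩ := h _ _ hc (fun i a b => c (e.symm i) (f.symm a) (f.symm b))
  refine ⟨fun a => x (f a), ?_, fun i => ?_⟩
  · intro h1
    apply hx
    funext a
    have := congrFun h1 (f.symm a)
    simpa using this
  · have h2 := h0 (e i)
    rw [Equiv.symm_apply_apply] at h2
    rw [← Equiv.sum_comp f.symm]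
    rw [← h2]
    refine Finset.sum_congr rfl fun a _ => ?_
    rw [← Equiv.sum_comp f.symm]
    refine Finset.sum_congr rfl fun b _ => ?_
    simp

section alg

open MvPolynomial

variable {C : Type*} [Field C] [IsAlgClosed C]

omit [IsAlgClosed C] in
private lemma height_point {n : ℕ} (x : Fin n → C) :
    (vanishingIdeal C {x} : Ideal (MvPolynomial (Fin n) C)).height =
      (vanishingIdeal C {(0 : Fin n → C)} : Ideal (MvPolynomial (Fin n) C)).height := by
  let e : MvPolynomial (Fin n) C ≃ₐ[C] MvPolynomial (Fin n) C :=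
    AlgEquiv.ofAlgHom (aeval fun i => X i + MvPolynomial.C (x i))
      (aeval fun i => X i - MvPolynomial.C (x i))
      (by ext i; simp) (by ext i; simp)
  have h : (vanishingIdeal C {(0 : Fin n → C)} : Ideal (MvPolynomial (Fin n) C)).comap
      e.toRingEquiv = vanishingIdeal C {x} := by
    ext p
    rw [Ideal.mem_comap, mem_vanishingIdeal_singleton_iff, mem_vanishingIdeal_singleton_iff]
    have h1 : aeval (0 : Fin n → C) (e p) = aeval x p := by
      have h2 : ((aeval (0 : Fin n → C)).comp e.toAlgHom : MvPolynomial (Fin n) C →ₐ[C] C) =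
          aeval x := by
        ext i
        simp [e]
      exact DFunLike.congr_fun h2 p
    change aeval (0 : Fin n → C) (e p) = 0 ↔ _
    rw [h1]
  rw [← h]
  exact RingEquiv.height_comap _ _

private lemma le_height_origin (n : ℕ) :
    (n : ℕ∞) ≤ (vanishingIdeal C {(0 : Fin n → C)} : Ideal (MvPolynomial (Fin n) C)).height := by
  have h1 : ringKrullDim (MvPolynomial (Fin n) C) ≤
      ((vanishingIdeal C {(0 : Fin n → C)} : Ideal (MvPolynomial (Fin n) C)).height :
        WithBot ℕ∞) := by
    rw [ringKrullDim_le_iff_isMaximal_height_le]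
    intro m hm
    obtain ⟨x, rfl⟩ := (isMaximal_iff_eq_vanishingIdeal_singleton).mp hm
    rw [height_point]
  rw [MvPolynomial.ringKrullDim_of_isNoetherianRing, ringKrullDim_eq_zero_of_field, zero_add,
    Nat.card_eq_fintype_card, Fintype.card_fin] at h1
  exact_mod_cast h1

/-- `r < n` polynomials in `n` variables over an algebraically closed field which vanish at the
origin have another common zero -/
theorem exists_common_zero {r n : ℕ} (hrn : r < n) (f : Fin r → MvPolynomial (Fin n) C)
    (hf : ∀ i, aeval (0 : Fin n → C) (f i) = 0) :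
    ∃ x : Fin n → C, x ≠ 0 ∧ ∀ i, aeval x (f i) = 0 := by
  classical
  obtain ⟨I, hI⟩ : ∃ I, I = Ideal.span (Set.range f) := ⟨_, rfl⟩
  have hIm : I ≤ vanishingIdeal C {(0 : Fin n → C)} := by
    rw [hI, Ideal.span_le]
    rintro _ ⟨i, rfl⟩
    rw [SetLike.mem_coe, mem_vanishingIdeal_singleton_iff]
    exact hf i
  obtain ⟨P, hP, hPm⟩ := Ideal.exists_minimalPrimes_le hIm
  have hPp : P.IsPrime := hP.1.1
  have hht : P.height ≤ (r : ℕ∞) := by
    have h1 := Ideal.height_le_card_of_mem_minimalPrimes_span_finset (s := Finset.univ.image f)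
      (p := P) (by rw [Finset.coe_image, Finset.coe_univ, Set.image_univ, ← hI]; exact hP)
    refine h1.trans ?_
    have h2 := Finset.card_image_le (s := (Finset.univ : Finset (Fin r))) (f := f)
    rw [Finset.card_univ, Fintype.card_fin] at h2
    exact_mod_cast h2
  by_contra hcon
  push Not at hcon
  have hsub : zeroLocus C P ⊆ {(0 : Fin n → C)} := by
    intro x hx
    by_contra hx0
    obtain ⟨i, hi⟩ := hcon x hx0
    apply hi
    apply hx
    apply hP.1.2
    rw [hI]
    exact Ideal.subset_span ⟨i, rfl⟩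
  have h3 : vanishingIdeal C {(0 : Fin n → C)} ≤ P := by
    rw [← MvPolynomial.IsPrime.vanishingIdeal_zeroLocus (K := C) P]
    exact vanishingIdeal_anti_mono hsub
  have h4 := (le_height_origin (C := C) n).trans ((Ideal.height_mono h3).trans hht)
  have h5 : n ≤ r := by exact_mod_cast h4
  omega

theorem qs_algClosed : QS C 1 := by
  intro r n hrn c
  rw [one_mul] at hrn
  obtain ⟨x, hx, h⟩ := exists_common_zero (C := C) hrn
    (fun i => ∑ a, ∑ b, MvPolynomial.C (c i a b) * (X a * X b)) (fun i => by simp)
  refine ⟨x, hx, fun i => ?_⟩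
  have := h i
  simpa [map_sum] using this

end alg

/-- algebraic extensions -/
theorem QS.algebraic {F E : Type*} [Field F] [Field E] [Algebra F E] [Algebra.IsAlgebraic F E]
    {lam : ℕ} (h : QS F lam) : QS E lam := by
  classical
  intro r n hrn c
  -- the field generated by the coefficients
  let S : Set E := Set.range fun p : Fin r × Fin n × Fin n => c p.1 p.2.1 p.2.2
  have hS : S.Finite := Set.finite_range _
  let L := IntermediateField.adjoin F S
  have hfin : FiniteDimensional F L :=
    IntermediateField.finiteDimensional_adjoin fun x _ => Algebra.IsIntegral.isIntegral x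
  let b := Module.finBasis F L
  let d := Module.finrank F L
  have hd : 0 < d := Module.finrank_pos
  have hc : ∀ i a a', c i a a' ∈ L := fun i a a' =>
    IntermediateField.subset_adjoin F S ⟨(i, a, a'), rfl⟩
  obtain ⟨y, hy, h0⟩ := h.fintype (ι := Fin r × Fin d) (κ := Fin n × Fin d)
    (by
      rw [Fintype.card_prod, Fintype.card_prod, Fintype.card_fin, Fintype.card_fin,
        Fintype.card_fin, ← mul_assoc]
      exact Nat.mul_lt_mul_of_pos_right hrn hd)
    (fun i a a' => b.repr ((⟨c i.1 a.1 a'.1, hc _ _ _⟩ : L) * (b a.2 * b a'.2)) i.2)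
  obtain ⟨z, hz⟩ : ∃ z : Fin n → L, z = fun a => ∑ s, y (a, s) • b s := ⟨_, rfl⟩
  refine ⟨fun a => (z a : E), ?_, fun i => ?_⟩
  · intro hz0
    apply hy
    funext ⟨a, s⟩
    have h1 : z a = 0 := by
      have := congrFun hz0 a
      exact Subtype.ext this
    have h2 : b.repr (z a) s = y (a, s) := by
      rw [hz]
      simp only [map_sum, map_smul, Module.Basis.repr_self, Finsupp.coe_finsetSum,
        Finset.sum_apply, Finsupp.smul_apply, Finsupp.single_apply, smul_eq_mul, mul_ite, mul_one,
        mul_zero, Finset.sum_ite_eq', Finset.mem_univ, if_true]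
    rw [← h2, h1]
    simp
  · have h1 : ∑ a, ∑ a', (⟨c i a a', hc _ _ _⟩ : L) * (z a * z a') = 0 := by
      apply b.repr.injective
      rw [map_zero]
      ext t
      have h2 := h0 (i, t)
      rw [Fintype.sum_prod_type] at h2
      rw [Finsupp.coe_zero, Pi.zero_apply, ← h2, map_sum, Finsupp.coe_finsetSum,
        Finset.sum_apply]
      refine Finset.sum_congr rfl fun a _ => ?_
      have h3 : ∀ a', (⟨c i a a', hc _ _ _⟩ : L) * (z a * z a') =
          ∑ s, ∑ s', (y (a, s) * y (a', s')) • ((⟨c i a a', hc _ _ _⟩ : L) * (b s * b s')) := by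
        intro a'
        rw [hz]
        simp only []
        rw [Finset.sum_mul_sum, Finset.mul_sum]
        refine Finset.sum_congr rfl fun s _ => ?_
        rw [Finset.mul_sum]
        refine Finset.sum_congr rfl fun s' _ => ?_
        rw [smul_mul_smul_comm, mul_smul_comm]
      simp only [h3, map_sum, map_smul, Finsupp.coe_finsetSum, Finset.sum_apply,
        Finsupp.smul_apply, smul_eq_mul]
      rw [Finset.sum_comm]
      refine Finset.sum_congr rfl fun s _ => ?_
      rw [Fintype.sum_prod_type]
      refine Finset.sum_congr rfl fun a' _ => ?_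
      refine Finset.sum_congr rfl fun s' _ => ?_
      rw [mul_comm]
    have h4 := congrArg (algebraMap L E) h1
    rw [map_zero, map_sum] at h4
    rw [← h4]
    refine Finset.sum_congr rfl fun a _ => ?_
    rw [map_sum]
    refine Finset.sum_congr rfl fun a' _ => ?_
    rw [map_mul, map_mul]
    rfl

section transc

open Polynomial

variable {F E : Type*} [Field F] [Field E] [Algebra F E]

private lemma common_den {t : E} (htop : IntermediateField.adjoin F {t} = ⊤) {ι : Type*} [Fintype ι]
    (c : ι → E) : ∃ d : F[X], aeval t d ≠ 0 ∧ ∀ i, ∃ p : F[X], aeval t d * c i = aeval t p := by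
  classical
  have h : ∀ i, ∃ p q : F[X], aeval t q ≠ 0 ∧ aeval t q * c i = aeval t p := by
    intro i
    have hi : c i ∈ IntermediateField.adjoin F {t} := by
      rw [htop]; exact IntermediateField.mem_top
    obtain ⟨p, q, hpq⟩ := IntermediateField.mem_adjoin_simple_iff F (c i) |>.mp hi
    by_cases hq : aeval t q = 0
    · refine ⟨0, 1, ?_, ?_⟩
      · rw [map_one]; exact one_ne_zero
      · rw [hpq, hq, div_zero, mul_zero, map_zero]
    · refine ⟨p, q, hq, ?_⟩
      rw [hpq]
      field_simp
  choose p q hq hpq using h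
  refine ⟨∏ i, q i, ?_, fun i => ⟨(∏ j ∈ Finset.univ.erase i, q j) * p i, ?_⟩⟩
  · rw [map_prod]
    exact Finset.prod_ne_zero_iff.mpr fun i _ => hq i
  · rw [map_mul, ← hpq i, ← Finset.mul_prod_erase Finset.univ q (Finset.mem_univ i), map_mul]
    ring

/-- simple transcendental extensions -/
theorem QS.transcendental {lam : ℕ} (h : QS F lam) {t : E} (ht : Transcendental F t)
    (htop : IntermediateField.adjoin F {t} = ⊤) : QS E (2 * lam) := by
  classical
  intro r n hrn c
  obtain ⟨d, hd, hp⟩ := common_den htop (ι := Fin r × Fin n × Fin n) (fun p => c p.1 p.2.1 p.2.2)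
  choose p hp using hp
  obtain ⟨D, hD⟩ : ∃ D : ℕ, ∀ i, (p i).natDegree ≤ D :=
    ⟨Finset.univ.sup fun i => (p i).natDegree, fun i => Finset.le_sup (f := fun i =>
      (p i).natDegree) (Finset.mem_univ i)⟩
  obtain ⟨e, he⟩ : ∃ e, e = lam * r * D := ⟨_, rfl⟩
  obtain ⟨y, hy, h0⟩ := h.fintype (ι := Fin r × Fin (2 * e + D + 1)) (κ := Fin n × Fin (e + 1))
    (by
      rw [Fintype.card_prod, Fintype.card_prod, Fintype.card_fin, Fintype.card_fin,
        Fintype.card_fin, Fintype.card_fin]
      have h1 : (2 * lam * r + 1) * (e + 1) ≤ n * (e + 1) := Nat.mul_le_mul_right _ hrn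
      refine lt_of_lt_of_le ?_ h1
      have h2 : lam * (r * (2 * e + D + 1)) = 2 * (lam * r) * e + lam * r * D + lam * r := by ring
      have h3 : (2 * lam * r + 1) * (e + 1) = 2 * (lam * r) * e + 2 * (lam * r) + e + 1 := by ring
      rw [h2, h3, ← he]
      omega)
    (fun i a b => (p (i.1, a.1, b.1) * (X ^ (a.2 : ℕ) * X ^ (b.2 : ℕ))).coeff i.2)
  obtain ⟨Y, hY⟩ : ∃ Y : Fin n → F[X], Y = fun a => ∑ s : Fin (e + 1),
    Polynomial.C (y (a, s)) * X ^ (s : ℕ) := ⟨_, rfl⟩
  have hYc : ∀ a (s : Fin (e + 1)), (Y a).coeff s = y (a, s) := by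
    intro a s
    rw [hY]
    simp only [finsetSum_coeff, coeff_C_mul, coeff_X_pow]
    rw [Finset.sum_eq_single s]
    · simp
    · intro s' _ hs'
      rw [if_neg (fun h => hs' (Fin.ext h.symm)), mul_zero]
    · intro h; exact absurd (Finset.mem_univ s) h
  have hYd : ∀ a, (Y a).natDegree ≤ e := by
    intro a
    rw [hY]
    refine natDegree_sum_le_of_forall_le _ _ fun s _ => ?_
    exact (natDegree_C_mul_X_pow_le _ _).trans (Nat.lt_succ_iff.mp s.2)
  have hinj : ∀ q : F[X], aeval t q = 0 → q = 0 := by
    intro q hq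
    by_contra hne
    exact ht ⟨q, hne, hq⟩
  refine ⟨fun a => aeval t (Y a), ?_, fun i => ?_⟩
  · intro hz
    apply hy
    funext ⟨a, s⟩
    rw [← hYc, hinj _ (congrFun hz a)]
    simp
  · have hpoly : ∑ a, ∑ b, p (i, a, b) * (Y a * Y b) = 0 := by
      ext m
      rw [coeff_zero]
      by_cases hm : m < 2 * e + D + 1
      · have h1 := h0 (i, ⟨m, hm⟩)
        rw [Fintype.sum_prod_type] at h1
        rw [← h1, finsetSum_coeff]
        refine Finset.sum_congr rfl fun a _ => ?_
        have h3 : ∀ b, (p (i, a, b) * (Y a * Y b)).coeff m = ∑ s : Fin (e + 1), ∑ s' : Fin (e + 1),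
            (p (i, a, b) * (X ^ (s : ℕ) * X ^ (s' : ℕ))).coeff m * (y (a, s) * y (b, s')) := by
          intro b
          rw [hY]
          simp only []
          rw [Finset.sum_mul_sum, Finset.mul_sum, finsetSum_coeff]
          refine Finset.sum_congr rfl fun s _ => ?_
          rw [Finset.mul_sum, finsetSum_coeff]
          refine Finset.sum_congr rfl fun s' _ => ?_
          have e1 : p (i, a, b) * (Polynomial.C (y (a, s)) * X ^ (s : ℕ) *
              (Polynomial.C (y (b, s')) * X ^ (s' : ℕ))) =
              Polynomial.C (y (a, s) * y (b, s')) *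
                (p (i, a, b) * (X ^ (s : ℕ) * X ^ (s' : ℕ))) := by
            rw [Polynomial.C_mul]; ring
          rw [e1, coeff_C_mul, mul_comm]
        rw [finsetSum_coeff]
        simp only [h3]
        rw [Finset.sum_comm]
        refine Finset.sum_congr rfl fun s _ => ?_
        rw [Fintype.sum_prod_type]
      · rw [finsetSum_coeff]
        refine Finset.sum_eq_zero fun a _ => ?_
        rw [finsetSum_coeff]
        refine Finset.sum_eq_zero fun b _ => ?_
        apply coeff_eq_zero_of_natDegree_lt
        have h4 := hYd a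
        have h5 := hYd b
        have h6 := hD (i, a, b)
        have h7 : (p (i, a, b) * (Y a * Y b)).natDegree ≤ D + (e + e) :=
          natDegree_mul_le.trans (add_le_add h6 (natDegree_mul_le.trans (add_le_add h4 h5)))
        omega
    have h1 : aeval t d * ∑ a, ∑ b, c i a b * (aeval t (Y a) * aeval t (Y b)) = 0 := by
      have h2 := congrArg (aeval t) hpoly
      rw [map_zero, map_sum] at h2
      rw [← h2, Finset.mul_sum]
      refine Finset.sum_congr rfl fun a _ => ?_
      rw [map_sum, Finset.mul_sum]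
      refine Finset.sum_congr rfl fun b _ => ?_
      rw [map_mul, map_mul, ← hp (i, a, b)]
      ring
    exact (mul_eq_zero.mp h1).resolve_left hd

end transc

end Pool.Agent.Lib.Mead.Gen
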