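import Mathlib
import Pool.Agent.Lib.Mead.T2

/-!
# Quaternion norm forms over totally complex number fields

`nf a b` is the norm form of the quaternion algebra `(a, b)`, `pq a b` the square of a pure
quaternion.
-/

set_option autoImplicit false
set_option linter.unusedSectionVars false

universe v

namespace Pool.Agent.Lib.Mead.Gen

open IsDedekindDomain NumberField WithZero Pool.Agent.Lib.QCFT

section formal

variable {F : Type*} [Field F]

/-- the norm form `<1, -a, -b, ab>` -/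
def nf (a b : F) (x : Fin 4 → F) : F :=
  x 0 ^ 2 - a * x 1 ^ 2 - b * x 2 ^ 2 + a * b * x 3 ^ 2

/-- the square of the pure quaternion `x`, `<a, b, -ab>` -/
def pq (a b : F) (x : Fin 3 → F) : F := a * x 0 ^ 2 + b * x 1 ^ 2 - a * b * x 2 ^ 2

lemma pq_of_hf (a b : F) (z : Fin 3 → F) :
    pq a b ![b * z 2, a * z 1, z 0] = -(a * b) * hf a b z := by
  simp only [pq, hf, Matrix.cons_val_zero, Matrix.cons_val_one, Matrix.cons_val]
  ring

lemma nf_cons (a b x0 : F) (x : Fin 3 → F) : nf a b ![x0, x 0, x 1, x 2] = x0 ^ 2 - pq a b x := by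
  simp only [pq, nf, Matrix.cons_val_zero, Matrix.cons_val_one, Matrix.cons_val]
  ring

/-- the product of two pure quaternions -/
lemma pq_mul_pq (a b : F) (z y : Fin 3 → F) :
    pq a b z * pq a b y = (a * (z 0 * y 0) + b * (z 1 * y 1) - a * b * (z 2 * y 2)) ^ 2 -
      pq a b ![-(b * (z 1 * y 2 - z 2 * y 1)), a * (z 0 * y 2 - z 2 * y 0),
        z 0 * y 1 - z 1 * y 0] := by
  simp only [pq, Matrix.cons_val_zero, Matrix.cons_val_one, Matrix.cons_val]
  ring

lemma pq_smul (a b c : F) (x : Fin 3 → F) : pq a b (fun i => c * x i) = c ^ 2 * pq a b x := by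
  simp only [pq]
  ring

end formal

section arith

variable {k : Type v} [Field k] [NumberField k]

/-- **(hs)**: `pq ⊥ -δ pq` is isotropic over a totally complex number field. -/
theorem hs [IsTotallyComplex k] {a b : k} (ha : a ≠ 0) (hb : b ≠ 0) (hN : Nice a) (δ : k) :
    ∃ y z : Fin 3 → k, (y ≠ 0 ∨ z ≠ 0) ∧ pq a b z = δ * pq a b y := by
  obtain ⟨z, w, hzw, h⟩ := t1_nice ha hb hN δ
  have hne : ∀ x : Fin 3 → k, x ≠ 0 → ![b * x 2, a * x 1, x 0] ≠ 0 := by
    intro x hx h0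
    apply hx
    have h1 := congrFun h0 0
    have h2 := congrFun h0 1
    have h3 := congrFun h0 2
    simp only [Matrix.cons_val_zero, Matrix.cons_val_one, Matrix.cons_val, Pi.zero_apply,
      mul_eq_zero, ha, hb, false_or] at h1 h2 h3
    funext i
    fin_cases i
    · exact h3
    · exact h2
    · exact h1
  refine ⟨![b * w 2, a * w 1, w 0], ![b * z 2, a * z 1, z 0], hzw.symm.imp (hne w) (hne z), ?_⟩
  rw [pq_of_hf, pq_of_hf, h]
  ring

/-- Over a totally complex number field every nonzero element is a value of the norm form, or the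
norm form is isotropic (`a` nice). -/
theorem nf_isotropic_or [IsTotallyComplex k] {a b : k} (ha : a ≠ 0) (hb : b ≠ 0) (hN : Nice a)
    (δ : k) : (∃ v : Fin 4 → k, v ≠ 0 ∧ nf a b v = 0) ∨
      ∃ (x0 : k) (x : Fin 3 → k), δ = x0 ^ 2 - pq a b x := by
  obtain ⟨y, z, hyz, h⟩ := hs ha hb hN δ
  have hiso : ∀ x : Fin 3 → k, x ≠ 0 → pq a b x = 0 → ∃ v : Fin 4 → k, v ≠ 0 ∧ nf a b v = 0 := by
    intro x hx h0
    refine ⟨![0, x 0, x 1, x 2], ?_, ?_⟩
    · intro h1
      apply hx
      have e1 := congrFun h1 1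
      have e2 := congrFun h1 2
      have e3 := congrFun h1 3
      simp only [Matrix.cons_val_zero, Matrix.cons_val_one, Matrix.cons_val,
        Pi.zero_apply] at e1 e2 e3
      funext i
      fin_cases i
      · exact e1
      · exact e2
      · exact e3
    · rw [nf_cons, h0]; ring
  by_cases hy : y = 0
  · left
    subst hy
    have hz : z ≠ 0 := by
      rcases hyz with h1 | h1
      · exact absurd rfl h1
      · exact h1
    refine hiso z hz ?_
    rw [h]; simp [pq]
  by_cases hpy : pq a b y = 0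
  · exact Or.inl (hiso y hy hpy)
  right
  refine ⟨(pq a b y)⁻¹ * (a * (z 0 * y 0) + b * (z 1 * y 1) - a * b * (z 2 * y 2)),
    fun i => (pq a b y)⁻¹ * (![-(b * (z 1 * y 2 - z 2 * y 1)), a * (z 0 * y 2 - z 2 * y 0),
        z 0 * y 1 - z 1 * y 0] : Fin 3 → k) i, ?_⟩
  rw [pq_smul, mul_pow, ← mul_sub, ← pq_mul_pq, h]
  field_simp

/-! ### Dyadic primes -/

private lemma dy_unit (w : HeightOneSpectrum (𝓞 k)) (h2 : w.valuation k (2 : k) < 1) {n : ℕ}
    (hn : Odd n) : w.valuation k (n : k) = 1 := by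
  obtain ⟨m, rfl⟩ := hn
  have e : ((2 * m + 1 : ℕ) : k) - 1 = 2 * (m : k) := by push_cast; ring
  apply val_eq_one_of_sub
  rw [e, map_mul]
  calc w.valuation k 2 * w.valuation k (m : k) ≤ w.valuation k 2 * 1 := by
        gcongr; exact val_natCast_le w m
    _ < 1 := by rwa [mul_one]

/-- a bound for all dyadic absolute values -/
lemma dy_bound (t : k) : ∃ N : ℕ, ∀ w : HeightOneSpectrum (𝓞 k), w.valuation k (2 : k) < 1 →
    w.valuation k (2 : k) ^ N * w.valuation k t ≤ 1 := by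
  obtain ⟨n, hn, h⟩ := exists_den t
  obtain ⟨N, n', hn', rfl⟩ := Nat.exists_eq_two_pow_mul_odd hn
  refine ⟨2 * N, fun w h2 => ?_⟩
  have h1 := h w
  have e : t * (((2 ^ N * n' : ℕ) : k)) ^ 2 = 2 ^ (2 * N) * t * (n' : k) ^ 2 := by
    push_cast; ring
  rw [e, map_mul, map_mul, map_pow, map_pow, dy_unit w h2 hn', one_pow, mul_one] at h1
  exact h1

lemma dy_bound' (t : k) (j : ℕ) : ∃ N : ℕ, ∀ w : HeightOneSpectrum (𝓞 k),
    w.valuation k (2 : k) < 1 → ∀ m : ℕ, N ≤ m → ∀ ε : k,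
      w.valuation k ε ≤ w.valuation k (2 : k) ^ m →
      w.valuation k (ε * t) ≤ w.valuation k (2 : k) ^ j := by
  obtain ⟨N, hN⟩ := dy_bound t
  refine ⟨N + j, fun w h2 m hm ε hε => ?_⟩
  obtain ⟨l, rfl⟩ : ∃ l, m = N + j + l := ⟨m - (N + j), by omega⟩
  rw [map_mul]
  calc w.valuation k ε * w.valuation k t
      ≤ w.valuation k 2 ^ (N + j + l) * w.valuation k t := by gcongr
    _ = w.valuation k 2 ^ j * w.valuation k 2 ^ l * (w.valuation k 2 ^ N * w.valuation k t) := by
        rw [pow_add, pow_add]; ac_rfl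
    _ ≤ w.valuation k 2 ^ j * 1 * 1 := by
        gcongr
        · exact pow_le_one₀ zero_le h2.le
        · exact hN w h2
    _ = _ := by rw [mul_one, mul_one]

/-- Newton iteration -/
theorem Nice.newton {a : k} (h : Nice a) (m : ℕ) : ∃ α : k, α ≠ 0 ∧
    ∀ w : HeightOneSpectrum (𝓞 k), w.valuation k (2 : k) < 1 →
      w.valuation k (a / α ^ 2 - 1) ≤ w.valuation k (2 : k) ^ (m + 3) := by
  by_cases hex : ∃ w : HeightOneSpectrum (𝓞 k), w.valuation k (2 : k) < 1
  swap
  · exact ⟨1, one_ne_zero, fun w hw => absurd ⟨w, hw⟩ hex⟩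
  obtain ⟨w0, hw0⟩ := hex
  induction m with
  | zero =>
    obtain ⟨α, hα, h⟩ := h
    refine ⟨α, hα, fun w hw => (h w hw).trans (le_of_eq ?_)⟩
    rw [← map_pow]; norm_num
  | succ m ih =>
    obtain ⟨α, hα, ih⟩ := ih
    obtain ⟨ε, hε⟩ : ∃ ε, ε = a / α ^ 2 - 1 := ⟨_, rfl⟩
    rw [← hε] at ih
    have hv1 : ∀ w : HeightOneSpectrum (𝓞 k), w.valuation k (2 : k) < 1 →
        w.valuation k (1 + ε / 2) = 1 := by
      intro w hw
      apply (w.valuation k).map_one_add_of_lt
      rw [map_div₀]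
      have h20 := val_two_ne (K := k) w
      have h0 : 0 < w.valuation k (2 : k) := zero_lt_iff.mpr h20
      rw [div_lt_one₀ h0]
      refine lt_of_le_of_lt (ih w hw) ?_
      calc w.valuation k (2 : k) ^ (m + 3) = w.valuation k 2 ^ (m + 1) * (w.valuation k 2 *
            w.valuation k 2) := by rw [pow_succ, pow_succ, mul_assoc]
        _ ≤ 1 * (w.valuation k 2 * w.valuation k 2) := by
            gcongr
            exact pow_le_one₀ zero_le hw.le
        _ = w.valuation k 2 * w.valuation k 2 := one_mul _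
        _ < w.valuation k 2 * 1 := mul_lt_mul_of_pos_left hw h0
        _ = _ := mul_one _
    have hne : 1 + ε / 2 ≠ 0 := by
      intro h0
      have := hv1 w0 hw0
      rw [h0, map_zero] at this
      exact zero_ne_one this
    refine ⟨α * (1 + ε / 2), mul_ne_zero hα hne, fun w hw => ?_⟩
    have e : a / (α * (1 + ε / 2)) ^ 2 - 1 = -(ε ^ 2 / (4 * (1 + ε / 2) ^ 2)) := by
      obtain ⟨s, hs⟩ : ∃ s, s = 1 + ε / 2 := ⟨_, rfl⟩
      rw [← hs] at hne ⊢
      have e2 : ε = 2 * (s - 1) := by rw [hs]; ring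
      have e1 : a = α ^ 2 * (2 * s - 1) := by
        have e3 : a / α ^ 2 = 2 * s - 1 := by linear_combination e2 - hε
        rw [← e3]
        field_simp
      rw [e1, e2]
      field_simp
      ring
    rw [e, Valuation.map_neg, map_div₀, map_mul, map_pow, map_pow, hv1 w hw, one_pow, mul_one]
    have h0 : 0 < w.valuation k (4 : k) := zero_lt_iff.mpr (val_four_ne w)
    rw [div_le_iff₀ h0, val_four]
    calc w.valuation k ε ^ 2 ≤ (w.valuation k (2 : k) ^ (m + 3)) ^ 2 := by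
          gcongr; exact ih w hw
      _ = w.valuation k 2 ^ (m + 1 + 3) * (w.valuation k 2 * w.valuation k 2) *
          w.valuation k 2 ^ m := by
          rw [← pow_two, ← pow_add, ← pow_add, ← pow_mul]
          congr 1
          omega
      _ ≤ w.valuation k 2 ^ (m + 1 + 3) * (w.valuation k 2 * w.valuation k 2) * 1 := by
          gcongr
          exact pow_le_one₀ zero_le hw.le
      _ = _ := by rw [mul_one]

/-- nice elements stay nice in extensions -/
theorem Nice.map {M : Type*} [Field M] [NumberField M] [Algebra k M] {a : k} (h : Nice a) :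
    Nice (algebraMap k M a) := by
  obtain ⟨α, hα, h⟩ := h
  refine ⟨algebraMap k M α, (map_ne_zero _).mpr hα, fun w hw => ?_⟩
  have h2 : w.valuation M (2 : M) = (und k w).valuation k (2 : k) ^ ee k w := by
    have h5 : algebraMap k M (2 : k) = 2 := map_ofNat _ 2
    rw [← h5, val_algebraMap]
  have h8 : w.valuation M (8 : M) = (und k w).valuation k (8 : k) ^ ee k w := by
    have h5 : algebraMap k M (8 : k) = 8 := map_ofNat _ 8
    rw [← h5, val_algebraMap]
  have h2' : (und k w).valuation k (2 : k) < 1 := by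
    by_contra hcon
    have h3 : (und k w).valuation k (2 : k) = 1 := le_antisymm (val_two_le _) (not_lt.mp hcon)
    rw [h2, h3, one_pow] at hw
    exact lt_irrefl _ hw
  have e : algebraMap k M a / algebraMap k M α ^ 2 - 1 = algebraMap k M (a / α ^ 2 - 1) := by
    rw [map_sub, map_div₀, map_pow, map_one]
  rw [e, h8, val_algebraMap]
  exact pow_le_pow_left₀ zero_le (h _ h2') _

/-- natural numbers `1` modulo `8` are nice -/
theorem nice_natCast {p : ℕ} (hp : p % 8 = 1) : Nice (p : k) := by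
  refine ⟨1, one_ne_zero, fun w _ => ?_⟩
  obtain ⟨m, hm⟩ : ∃ m : ℕ, p = 8 * m + 1 := ⟨p / 8, by omega⟩
  have e : (p : k) / 1 ^ 2 - 1 = 8 * (m : k) := by
    rw [hm]; push_cast; ring
  rw [e, map_mul]
  calc w.valuation k 8 * w.valuation k (m : k) ≤ w.valuation k 8 * 1 := by
        gcongr; exact val_natCast_le w m
    _ = _ := mul_one _

/-- there is a dyadic prime -/
lemma exists_dyadic : ∃ w : HeightOneSpectrum (𝓞 k), w.valuation k (2 : k) < 1 := by
  have h2 : ¬ IsUnit (2 : 𝓞 k) := by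
    intro hu
    obtain ⟨y, hy⟩ := hu.exists_right_inv
    have h1 : (2 : k) * algebraMap (𝓞 k) k y = 1 := by
      have := congrArg (algebraMap (𝓞 k) k) hy
      rwa [map_mul, map_one, map_ofNat] at this
    have h3 : algebraMap (𝓞 k) k y = algebraMap ℚ k (1 / 2) := by
      rw [map_div₀, map_one, map_ofNat]
      field_simp
      linear_combination h1
    have h4 : IsIntegral ℤ (algebraMap ℚ k (1 / 2)) := by
      rw [← h3]
      exact y.isIntegral_coe
    have h5 : IsIntegral ℤ (1 / 2 : ℚ) :=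
      (isIntegral_algebraMap_iff (algebraMap ℚ k).injective).mp h4
    obtain ⟨n, hn⟩ := IsIntegrallyClosed.isIntegral_iff.mp h5
    have h6 : (2 * n : ℚ) = 1 := by
      have h7 : (n : ℚ) = 1 / 2 := hn
      rw [h7]; norm_num
    have h8 : (2 * n : ℤ) = 1 := by exact_mod_cast h6
    omega
  obtain ⟨P, hP, hmem⟩ := exists_max_ideal_of_mem_nonunits h2
  have hne : P ≠ ⊥ := by
    rintro rfl
    rw [Ideal.mem_bot] at hmem
    exact two_ne_zero hmem
  refine ⟨⟨P, hP.isPrime, hne⟩, ?_⟩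
  have h := (HeightOneSpectrum.valuation_lt_one_iff_mem (K := k) ⟨P, hP.isPrime, hne⟩
    (2 : 𝓞 k)).mpr hmem
  have e : algebraMap (𝓞 k) k (2 : 𝓞 k) = 2 := map_ofNat _ 2
  rw [← e]
  exact h

theorem Nice.ne_zero {c : k} (h : Nice c) : c ≠ 0 := by
  rintro rfl
  obtain ⟨α, hα, h⟩ := h
  obtain ⟨w, hw⟩ := exists_dyadic (k := k)
  have h1 := h w hw
  rw [zero_div, zero_sub, Valuation.map_neg, map_one] at h1
  have h8 : w.valuation k (8 : k) = w.valuation k 2 * (w.valuation k 2 * w.valuation k 2) := by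
    rw [← map_mul, ← map_mul]; norm_num
  rw [h8] at h1
  have h2 : w.valuation k 2 * (w.valuation k 2 * w.valuation k 2) ≤ w.valuation k 2 * 1 := by
    gcongr
    exact mul_le_one' hw.le hw.le
  rw [mul_one] at h2
  exact absurd (h1.trans h2) (not_le.mpr hw)

private lemma val_eight (w : HeightOneSpectrum (𝓞 k)) :
    w.valuation k (8 : k) = w.valuation k (2 : k) ^ 3 := by
  rw [← map_pow]; norm_num

/-- **(orth)** -/
theorem orth {a b : k} (hN : Nice a) (hsq : ¬ IsSquare a) (hb : b ≠ 0) (x : Fin 3 → k) :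
    ∃ r : Fin 3 → k,
      a * (x 0 * r 0) + b * (x 1 * r 1) - a * b * (x 2 * r 2) = 0 ∧ Nice (pq a b r) := by
  have ha : a ≠ 0 := hN.ne_zero
  by_cases h12 : x 1 = 0 ∧ x 2 = 0
  · obtain ⟨h1, h2⟩ := h12
    obtain ⟨N, hNb⟩ := dy_bound' ((b - 1) ^ 2 / (4 * b)) 3
    obtain ⟨α, hα, hε⟩ := hN.newton N
    refine ⟨![0, (b + 1) / (2 * b), (b - 1) / (2 * b * α)], ?_, 1, one_ne_zero, fun w hw => ?_⟩
    · rw [h1, h2]
      simp
    · have e : pq a b ![0, (b + 1) / (2 * b), (b - 1) / (2 * b * α)] / 1 ^ 2 - 1 =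
          -((a / α ^ 2 - 1) * ((b - 1) ^ 2 / (4 * b))) := by
        simp only [pq, Matrix.cons_val_zero, Matrix.cons_val_one, Matrix.cons_val]
        field_simp
        ring
      rw [e, Valuation.map_neg, val_eight]
      exact hNb w hw (N + 3) (by omega) _ (hε w hw)
  obtain ⟨D, hD⟩ : ∃ D, D = x 1 ^ 2 - a * x 2 ^ 2 := ⟨_, rfl⟩
  have hD0 : D ≠ 0 := by
    intro h0
    rw [hD] at h0
    by_cases h2 : x 2 = 0
    · apply h12
      refine ⟨?_, h2⟩
      rw [h2] at h0
      have h3 : x 1 ^ 2 = 0 := by linear_combination h0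
      exact pow_eq_zero_iff two_ne_zero |>.mp h3
    · apply hsq
      refine ⟨x 1 / x 2, ?_⟩
      field_simp
      linear_combination -h0
  obtain ⟨t1, ht1⟩ : ∃ t1, t1 = a * x 2 ^ 2 / D := ⟨_, rfl⟩
  obtain ⟨t2, ht2⟩ : ∃ t2, t2 = x 0 ^ 2 * a * x 1 ^ 2 / (b * D ^ 2) := ⟨_, rfl⟩
  obtain ⟨t3, ht3⟩ : ∃ t3, t3 = x 0 ^ 2 * a ^ 2 * x 2 ^ 2 / (b * D ^ 2) := ⟨_, rfl⟩
  obtain ⟨N1, hN1⟩ := dy_bound' t1 1
  obtain ⟨N2, hN2⟩ := dy_bound' t2 3
  obtain ⟨N3, hN3⟩ := dy_bound' t3 3
  obtain ⟨α, hα, hε⟩ := hN.newton (N1 + N2 + N3)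
  obtain ⟨ε, hεe⟩ : ∃ ε, ε = a / α ^ 2 - 1 := ⟨_, rfl⟩
  rw [← hεe] at hε
  have haε : a = α ^ 2 * (1 + ε) := by rw [hεe]; field_simp; ring
  obtain ⟨u, hu⟩ : ∃ u, u = 1 - ε * t1 := ⟨_, rfl⟩
  have hvu : ∀ w : HeightOneSpectrum (𝓞 k), w.valuation k (2 : k) < 1 →
      w.valuation k u = 1 := by
    intro w hw
    have h1 := hN1 w hw _ (by omega) ε (hε w hw)
    rw [pow_one] at h1
    have h2 : w.valuation k (-(ε * t1)) < 1 := by
      rw [Valuation.map_neg]
      exact lt_of_le_of_lt h1 hw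
    have h3 := (w.valuation k).map_one_add_of_lt h2
    rwa [← sub_eq_add_neg, ← hu] at h3
  have hvε : ∀ w : HeightOneSpectrum (𝓞 k), w.valuation k (2 : k) < 1 →
      w.valuation k ε ≤ w.valuation k (2 : k) ^ 3 := by
    intro w hw
    refine (hε w hw).trans ?_
    rw [pow_add]
    calc w.valuation k 2 ^ (N1 + N2 + N3) * w.valuation k 2 ^ 3 ≤ 1 * w.valuation k 2 ^ 3 := by
          gcongr
          exact pow_le_one₀ zero_le hw.le
      _ = _ := one_mul _
  have hv1ε : ∀ w : HeightOneSpectrum (𝓞 k), w.valuation k (2 : k) < 1 →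
      w.valuation k (1 + ε) = 1 := by
    intro w hw
    apply (w.valuation k).map_one_add_of_lt
    refine lt_of_le_of_lt (hvε w hw) ?_
    exact pow_lt_one₀ zero_le hw (by norm_num)
  obtain ⟨w0, hw0⟩ := exists_dyadic (k := k)
  have hu0 : u ≠ 0 := by
    intro h0
    have := hvu w0 hw0
    rw [h0, map_zero] at this
    exact zero_ne_one this
  obtain ⟨P, hP⟩ : ∃ P, P = α * x 1 + a * x 2 := ⟨_, rfl⟩
  obtain ⟨Q, hQ⟩ : ∃ Q, Q = α * x 1 - a * x 2 := ⟨_, rfl⟩
  have hPQ : Q * P = α ^ 2 * (D * u) := by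
    have e1 : D * u = D - ε * (a * x 2 ^ 2) := by
      rw [hu, ht1]; field_simp
    rw [e1, hP, hQ, hD]
    linear_combination (- a * x 2 ^ 2) * haε
  have hQ0 : Q ≠ 0 := by
    intro h0
    rw [h0, zero_mul] at hPQ
    exact (mul_ne_zero (pow_ne_zero _ hα) (mul_ne_zero hD0 hu0)) hPQ.symm
  obtain ⟨ρ, hρ⟩ : ∃ ρ, ρ = -(a * x 0) / (b * Q) := ⟨_, rfl⟩
  have hρQ : b * ρ * Q = -(a * x 0) := by rw [hρ]; field_simp
  refine ⟨![1, α * ρ, ρ], ?_, α, hα, fun w hw => ?_⟩
  · simp only [Matrix.cons_val_zero, Matrix.cons_val_one, Matrix.cons_val]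
    rw [hQ] at hρQ
    linear_combination hρQ
  · have e : pq a b ![1, α * ρ, ρ] / α ^ 2 - 1 = ε + -(ε * (b * ρ ^ 2)) := by
      simp only [pq, Matrix.cons_val_zero, Matrix.cons_val_one, Matrix.cons_val]
      rw [hεe]
      field_simp
      ring
    rw [e, val_eight]
    refine Valuation.map_add_le _ (hvε w hw) ?_
    rw [Valuation.map_neg]
    have e2 : ε * (b * ρ ^ 2) = (ε * a ^ 2 * x 0 ^ 2 / (b * α ^ 4 * D ^ 2)) * P ^ 2 / u ^ 2 := by
      have e3 : P = α ^ 2 * (D * u) / Q := by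
        rw [← hPQ]; field_simp
      rw [e3, hρ]
      field_simp
    rw [e2, map_div₀, map_pow _ u, hvu w hw, one_pow, div_one, map_mul, map_pow _ P]
    have hPle : w.valuation k P ≤ max (w.valuation k (α * x 1)) (w.valuation k (a * x 2)) := by
      rw [hP]
      exact Valuation.map_add _ _ _
    rcases le_max_iff.mp hPle with h | h
    · calc w.valuation k (ε * a ^ 2 * x 0 ^ 2 / (b * α ^ 4 * D ^ 2)) * w.valuation k P ^ 2
          ≤ w.valuation k (ε * a ^ 2 * x 0 ^ 2 / (b * α ^ 4 * D ^ 2)) *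
            w.valuation k (α * x 1) ^ 2 := by gcongr
        _ = w.valuation k (ε * t2) := by
            rw [← map_pow, ← map_mul]
            have e4 : ε * a ^ 2 * x 0 ^ 2 / (b * α ^ 4 * D ^ 2) * (α * x 1) ^ 2 =
                ε * t2 * (1 + ε) := by
              have e5 : 1 + ε = a / α ^ 2 := by rw [hεe]; ring
              rw [ht2, e5]
              field_simp
            rw [e4, map_mul, hv1ε w hw, mul_one]
        _ ≤ _ := hN2 w hw _ (by omega) ε (hε w hw)
    · calc w.valuation k (ε * a ^ 2 * x 0 ^ 2 / (b * α ^ 4 * D ^ 2)) * w.valuation k P ^ 2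
          ≤ w.valuation k (ε * a ^ 2 * x 0 ^ 2 / (b * α ^ 4 * D ^ 2)) *
            w.valuation k (a * x 2) ^ 2 := by gcongr
        _ = w.valuation k (ε * t3) := by
            rw [← map_pow, ← map_mul]
            have e4 : ε * a ^ 2 * x 0 ^ 2 / (b * α ^ 4 * D ^ 2) * (a * x 2) ^ 2 =
                ε * t3 * (1 + ε) ^ 2 := by
              have e5 : 1 + ε = a / α ^ 2 := by rw [hεe]; ring
              rw [ht3, e5]
              field_simp
            rw [e4, map_mul, map_pow, hv1ε w hw, one_pow, mul_one]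
        _ ≤ _ := hN3 w hw _ (by omega) ε (hε w hw)

end arith

end Pool.Agent.Lib.Mead.Gen
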